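import Pool.Agent.H31.Suit2

set_option autoImplicit false

open Pool.Agent.H31 Topology

theorem Pool.Agent.Results.MP_7b4824_gt.Neg.result :
    ∃ _ : TopologicalSpace ((Cardinal.aleph.{0} 1).ord.ToType → ℤ),
      IsTopologicalAddGroup ((Cardinal.aleph.{0} 1).ord.ToType → ℤ) ∧
      (𝓝 (0 : (Cardinal.aleph.{0} 1).ord.ToType → ℤ)).HasBasis (fun _ => True)
        (fun a : (Cardinal.aleph.{0} 1).ord.ToType => {x | ∀ b < a, x b = 0}) ∧
      ∃ H : AddSubgroup ((Cardinal.aleph.{0} 1).ord.ToType → ℤ),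
        (∀ x ∈ H, (Function.support x).Countable) ∧
        ∀ S : Set H, DiscreteTopology S → IsClosed (S ∪ {0}) →
          ¬ Dense (AddSubgroup.closure S : Set H) :=
  Suit2.main
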